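import Pool.Agent.U536.CF.Sc
import Pool.Agent.Results.MP_0707f5_ag.NilpotentPencils

/-!
# Pencils of flat bundles with nilpotent Higgs field at integers near integers with a large common factor with a value of
a multiplicative function

Let `(E, ∇)` be a flat bundle on a curve over a finitely generated field of characteristic zero, `Φ` a nilpotent Higgs
field, `Φ ^ e = 0`, such that the generic member of the pencil `∇ + t Φ` has no constant semisimplification. The starting
file `NilpotentPencils` shows that for all integers `|q| ≤ X` but `C X ^ θ` the sum of `log p / p` over the primes `p` for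
which the `p`-curvature of `∇ + q Φ` does not vanish is large. Let `f` be a positive multiplicative function of at most
polynomial growth such that `f p ≤ M p` for the large primes `p`, with different values at different large primes; for
example Euler's function or the sum of the divisors. Let `G` have steps bounded below by a positive constant and growth at
most `v^d`, for example `α v^d`. Let `1 - 1 / e < β ≤ 1`, `θ (1 + (β - (1 - 1 / e))² / ((1 - 1 / e) (1 / e))) > 1` (for
`β = 1` this is `θ > 1 - 1 / e`), `θ' > θ` and `K` real, `B < 1`, `0 ≤ c < 2 B - 1` and `d θ + κ < ρ ≤ 1`. For all large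
`N`, for all `m ≤ N` but `N exp (-(log N)^c)`, for EVERY integer `w ≥ exp ((log N)^B)` with `gcd(w, f(m)) ≥ w^ρ` and EVERY
integer `q ≠ 0` with `||q| - G w| ≤ w ^ κ`, the sum of `log p / p` over the primes `p ≤ |q| ^ θ'` over which the
`p`-curvatures of `∇ + q Φ` do not vanish is larger than `(1 - β) θ log |q| + K`; in particular (`K` large) many of them do
not vanish. The integers `w` include all large divisors of `f(m)` and their multiples by small integers; for Euler's
function, the orders of the elements of the group of units modulo `m`.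

Proof. Write `m = k' u` with `u` squarefree and composed of primes larger than `N^(1/J)`, `J = (log N)^s`, and `k' ≤
exp (4 (log N)^s)`; this is possible for all `m ≤ N` but very few. If `v ∣ f(k') f(u)`, then the number of such `u ≤ N /
k'` is at most `N / (k' v')` times `(log N)^O(J)` times the number `τ_J(v')` of the ordered factorizations of `v'` into
`J` factors, `v' = v / gcd(v, f(k'))`. The inequality `τ_J^q ≤ τ_K` for `K ≥ J^q` and Hölder's inequality bound
the sum over the sparse set of the exceptional `v`. The large divisors of the values of multiplicative functions form a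
set of density zero and are taken with very large multiplicities, and so the theorem does not follow from the count of
the exceptional integers alone.
-/

set_option autoImplicit false

namespace Pool.Agent.Results.MP_0707f5_ag.CommonFactors

open Polynomial Module Pool.Agent.W77.IM
open Pool.Agent.N733.TG (LM Expanding lm_totient lm_sigma expanding_pow)
open Pool.Agent.U536.CF (Common common_scale_nat common_of_dvd common_order)
open Pool.Agent.Results.MP_0707f5_ag.NilpotentPencils (member badSum)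

universe u v w

lemma badSum_mono {R F V : Type*} [CommRing R] [Field F] [Algebra R F] [AddCommGroup V]
    [Module F V] {A : Subalgebra R F} (nabla : V →+ V) (E : Submodule A V) {Y Z : ℝ} (h : Y ≤ Z) :
    badSum nabla E Y ≤ badSum nabla E Z := by
  classical
  unfold badSum
  refine Finset.sum_le_sum_of_subset_of_nonneg ?_ ?_
  · intro p hp
    rw [Finset.mem_filter, Finset.mem_Icc] at hp ⊢
    exact ⟨⟨hp.1.1, hp.1.2.trans (Nat.floor_mono h)⟩, hp.2⟩
  · intro p _ _
    exact div_nonneg (Real.log_natCast_nonneg p) (Nat.cast_nonneg p)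

/-- from the count at one scale to the property at its own scale -/
lemma count (S : ℝ → ℤ → ℝ) (hS : ∀ (q : ℤ) (Y Z : ℝ), Y ≤ Z → S Y q ≤ S Z q) {β θ θ' K C : ℝ} (hθ : 0 < θ)
    (hθ' : θ < θ') (hβ : β ≤ 1)
    (hC : ∀ X : ℝ, 2 ≤ X → (Set.ncard {q : ℤ | |(q : ℝ)| ≤ X ∧ S (X ^ θ) q ≤ (1 - β) * θ * Real.log X + K} : ℝ) ≤
      C * X ^ θ) :
    ∃ N₀ : ℕ, ∀ M : ℕ, N₀ ≤ M → ({n : ℕ | 1 ≤ n ∧ n ≤ M ∧ (M < 2 * n ∧ ∃ q : ℤ, q.natAbs = n ∧
      S (|(q : ℝ)| ^ θ') q ≤ (1 - β) * θ * Real.log |(q : ℝ)| + K)}.ncard : ℝ) ≤ C * (M : ℝ) ^ θ := by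
  refine ⟨max 2 ⌈2 * (2 : ℝ) ^ (θ / (θ' - θ))⌉₊, fun M hM => ?_⟩
  have hM2 : (2 : ℝ) ≤ M := by exact_mod_cast (le_max_left _ _).trans hM
  have hM3 : 2 * (2 : ℝ) ^ (θ / (θ' - θ)) ≤ M :=
    (Nat.le_ceil _).trans (by exact_mod_cast (le_max_right _ _).trans hM)
  refine le_trans ?_ (hC M hM2)
  have hfin : {q : ℤ | |(q : ℝ)| ≤ (M : ℝ) ∧ S ((M : ℝ) ^ θ) q ≤ (1 - β) * θ * Real.log M + K}.Finite := by
    refine (Set.finite_Icc (-(M : ℤ)) M).subset fun q hq => ?_
    have h1 : |q| ≤ (M : ℤ) := by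
      have h2 := hq.1
      rw [← Int.cast_abs] at h2
      exact_mod_cast h2
    exact abs_le.1 h1
  have hsub : {n : ℕ | 1 ≤ n ∧ n ≤ M ∧ (M < 2 * n ∧ ∃ q : ℤ, q.natAbs = n ∧
      S (|(q : ℝ)| ^ θ') q ≤ (1 - β) * θ * Real.log |(q : ℝ)| + K)} ⊆
      Int.natAbs '' {q : ℤ | |(q : ℝ)| ≤ (M : ℝ) ∧ S ((M : ℝ) ^ θ) q ≤ (1 - β) * θ * Real.log M + K} := by
    rintro n ⟨g1, g2, g3, q, rfl, g4⟩
    have e1 : |(q : ℝ)| = (q.natAbs : ℝ) := by rw [Nat.cast_natAbs, Int.cast_abs]
    have e2 : (1 : ℝ) ≤ |(q : ℝ)| := by rw [e1]; exact_mod_cast g1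
    have e3 : |(q : ℝ)| ≤ M := by rw [e1]; exact_mod_cast g2
    have e4 : (M : ℝ) < 2 * |(q : ℝ)| := by rw [e1]; exact_mod_cast g3
    refine ⟨q, ⟨e3, ?_⟩, rfl⟩
    have e5 : (2 : ℝ) ^ (θ / (θ' - θ)) ≤ |(q : ℝ)| := by linarith
    have e6 : (2 : ℝ) ^ θ ≤ |(q : ℝ)| ^ (θ' - θ) := by
      have h1 := Real.rpow_le_rpow (by positivity) e5 (show 0 ≤ θ' - θ by linarith)
      rwa [← Real.rpow_mul (by norm_num), div_mul_cancel₀ _ (by linarith)] at h1
    have e7 : (M : ℝ) ^ θ ≤ |(q : ℝ)| ^ θ' := by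
      calc (M : ℝ) ^ θ ≤ (2 * |(q : ℝ)|) ^ θ := Real.rpow_le_rpow (by positivity) e4.le hθ.le
        _ = (2 : ℝ) ^ θ * |(q : ℝ)| ^ θ := Real.mul_rpow (by norm_num) (by positivity)
        _ ≤ |(q : ℝ)| ^ (θ' - θ) * |(q : ℝ)| ^ θ := mul_le_mul_of_nonneg_right e6 (by positivity)
        _ = |(q : ℝ)| ^ θ' := by rw [← Real.rpow_add (by linarith)]; congr 1; ring
    have e8 : Real.log |(q : ℝ)| ≤ Real.log M := Real.log_le_log (by linarith) e3
    have e9 : (1 - β) * θ * Real.log |(q : ℝ)| ≤ (1 - β) * θ * Real.log M :=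
      mul_le_mul_of_nonneg_left e8 (mul_nonneg (by linarith) hθ.le)
    linarith [hS q _ _ e7]
  exact_mod_cast (Set.ncard_le_ncard hsub (hfin.image _)).trans (Set.ncard_image_le hfin)

lemma pos_of_cond {e : ℕ} {β θ : ℝ} (he : 2 ≤ e)
    (h : 1 < θ * (1 + (β - (1 - 1 / (e : ℝ))) ^ 2 / ((1 - 1 / (e : ℝ)) * (1 / e)))) : 0 < θ := by
  have he2 : (2 : ℝ) ≤ e := by exact_mod_cast he
  have h1 : 1 / (e : ℝ) ≤ 1 := by
    rw [div_le_one (by linarith)]
    linarith
  have h2 : 0 ≤ (β - (1 - 1 / (e : ℝ))) ^ 2 / ((1 - 1 / (e : ℝ)) * (1 / e)) :=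
    div_nonneg (sq_nonneg _) (mul_nonneg (by linarith) (by positivity))
  by_contra h3
  nlinarith [not_lt.1 h3]

/-- **Pencils of flat bundles with nilpotent Higgs field at integers near integers with a large common factor with a value
of a multiplicative function.** The data are those of the starting file `NilpotentPencils`: `R` is a domain of
characteristic zero, finitely generated over `ℤ`, `F ⊇ R` a field with a derivation `δ`, `δ x = 1`, `V` a finite
dimensional vector space over `F` with a connection `∇` and a linear map `Φ`, `Φ ^ e = 0`, `e ≥ 2`, `E ⊆ V` a finitely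
generated `R[x, 1/T]`-module which is stable under `∇` and `Φ` and generates `V`, `t` a constant which is transcendental
over `R`, and `F₀` a `δ`-stable subfield containing `R` and `x`, with algebraically closed field of constants, such that
`F` is generated by `F₀` and constants.

Either `∇ + t Φ` has a filtration by subconnections with graded pieces defined over `F₀`, or the following holds. Let
`1 - 1 / e < β ≤ 1`, `θ (1 + (β - (1 - 1 / e))² / ((1 - 1 / e) (1 / e))) > 1`, `θ < θ'`, `K` real. Let `f` be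
multiplicative and positive, of at most polynomial growth, with `f p ≤ M p` at the large primes, and injective there
(`LM`). Let `G` have steps `≥ a > 0` and growth at most `v^d`. Let `B < 1`, `0 ≤ c < 2 B - 1`, `κ ≥ 0` and `d θ + κ < ρ ≤
1`. For all large `N`, for all `m ≤ N` but `N exp (-(log N)^c)`, for EVERY integer `w ≥ exp ((log N)^B)` with
`gcd(w, f(m)) ≥ w^ρ` and EVERY integer `q ≠ 0` with `||q| - G w| ≤ w ^ κ`: the sum of `log p / p` over the primes
`p ≤ |q| ^ θ'` over which the `p`-curvatures of `∇ + q Φ` do not vanish is larger than `(1 - β) θ log |q| + K`.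

Euler's function and the sum of the divisors are examples of `f`, and `α v^d` with `α > 0`, `d ≥ 1` is an example of `G`.
All divisors `w ≥ exp ((log N)^B)` of `f(m)` are such integers `w`, and for Euler's function the orders `≥ exp ((log
N)^B)` of the units modulo `m`. -/
theorem result {R : Type u} [CommRing R] [IsDomain R] [CharZero R] [Algebra.FiniteType ℤ R]
    {F : Type v} [Field F] [Algebra R F] (hR : Function.Injective (algebraMap R F))
    (δ : Derivation R F F) (x : F) (hx : δ x = 1) (T : R[X]) (hT : T ≠ 0)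
    {V : Type w} [AddCommGroup V] [Module F V] [FiniteDimensional F V]
    (nabla : V →+ V) (hnabla : ∀ (f : F) (v : V), nabla (f • v) = δ f • v + f • nabla v)
    (Φ : V →ₗ[F] V) {e : ℕ} (he : 2 ≤ e) (hΦe : Φ ^ e = 0)
    (E : Submodule (CoordRing x T R) V) (hfg : E.FG) (hE : ∀ v ∈ E, nabla v ∈ E)
    (hΦ : ∀ v ∈ E, Φ v ∈ E) (hspan : Submodule.span F (E : Set V) = ⊤)
    (t : F) (hδt : δ t = 0) (ht : Transcendental R t)
    (F₀ : Subfield F) (hF₀ : ∀ a : R, algebraMap R F a ∈ F₀) (hxF₀ : x ∈ F₀)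
    (hδF₀ : ∀ f ∈ F₀, δ f ∈ F₀) (hclosed : IsAlgClosed (constField δ F₀))
    (hgen : Subfield.closure ({c | δ c = 0} ∪ (F₀ : Set F)) = ⊤) :
    (GradedOver (member nabla Φ t) F₀ ∨
      ∀ β θ θ' K : ℝ, 1 - 1 / (e : ℝ) < β → β ≤ 1 →
        1 < θ * (1 + (β - (1 - 1 / (e : ℝ))) ^ 2 / ((1 - 1 / (e : ℝ)) * (1 / e))) → θ < θ' →
        ∀ f : ℕ → ℕ, LM f → ∀ (G : ℕ → ℝ) (d : ℝ), Expanding G d →
        ∀ κ ρ B c : ℝ, 0 ≤ κ → d * θ + κ < ρ → ρ ≤ 1 → B < 1 → 0 ≤ c → c < 2 * B - 1 →
        ∃ N₀ : ℕ, ∀ N : ℕ, N₀ ≤ N →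
          ({m : ℕ | 1 ≤ m ∧ m ≤ N ∧ ¬ ∀ w : ℕ, Common f B ρ N m w → ∀ q : ℤ, q ≠ 0 → |(|(q : ℝ)|) - G w| ≤ (w : ℝ) ^ κ →
            (1 - β) * θ * Real.log |(q : ℝ)| + K < badSum (member nabla Φ (q : F)) E (|(q : ℝ)| ^ θ')}.ncard : ℝ) ≤
              N * Real.exp (-(Real.log N ^ c))) ∧
    (LM Nat.totient ∧ LM (fun m => ∑ d ∈ m.divisors, d)) ∧
    (∀ α d : ℝ, 0 < α → 1 ≤ d → Expanding (fun v => α * (v : ℝ) ^ d) d) ∧
    (∀ (f : ℕ → ℕ) (B ρ : ℝ) (N m w : ℕ), ρ ≤ 1 → Real.exp (Real.log N ^ B) ≤ (w : ℝ) → w ∣ f m → Common f B ρ N m w) ∧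
    ∀ (B ρ : ℝ) (N m : ℕ), ρ ≤ 1 → ∀ x : (ZMod m)ˣ, Real.exp (Real.log N ^ B) ≤ (orderOf x : ℝ) →
      Common Nat.totient B ρ N m (orderOf x) := by
  refine ⟨?_, ⟨lm_totient, lm_sigma⟩,
    fun α d hα hd => expanding_pow hα hd, fun f B ρ N m w hρ hw hd => common_of_dvd hρ hw hd,
    fun B ρ N m hρ x hx => common_order hρ x hx⟩
  rcases NilpotentPencils.result hR δ x hx T hT nabla hnabla Φ he hΦe E hfg hE hΦ hspan t
    hδt ht F₀ hF₀ hxF₀ hδF₀ hclosed hgen with h | ⟨-, h⟩
  · exact Or.inl h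
  · right
    intro β θ θ' K hβ hβ1 hθ hθ' f hf G d hG κ ρ B c hκ h1 hρ hB hc hcb
    have hθ0 : 0 < θ := pos_of_cond he hθ
    obtain ⟨C, hC⟩ := h β θ K hβ hβ1 hθ
    obtain ⟨N₀, hN₀⟩ := count (fun Y q => badSum (member nabla Φ (q : F)) E Y)
      (fun q Y Z hYZ => badSum_mono _ _ hYZ) hθ0 hθ' hβ1 hC
    obtain ⟨N₁, hN₁⟩ := common_scale_nat (s := θ) (C := C) hθ0 N₀ 0 hf hG hκ h1 hρ hB hc hcb
    refine ⟨N₁, fun N hN => ?_⟩
    have key := hN₁ (fun M n => M < 2 * n ∧ ∃ q : ℤ, q.natAbs = n ∧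
        badSum (member nabla Φ (q : F)) E (|(q : ℝ)| ^ θ') ≤ (1 - β) * θ * Real.log |(q : ℝ)| + K)
      (fun n => ∃ q : ℤ, q.natAbs = n ∧
        badSum (member nabla Φ (q : F)) E (|(q : ℝ)| ^ θ') ≤ (1 - β) * θ * Real.log |(q : ℝ)| + K)
      hN₀ (fun n M _ _ _ h2 h3 => ⟨h2, h3⟩) N hN
    refine le_trans (le_of_eq ?_) key
    congr 2
    ext m
    simp only [Set.mem_ofPred_eq]
    refine and_congr_right fun _ => and_congr_right fun _ => not_congr (forall_congr' fun w => forall_congr' fun _ => ?_)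
    constructor
    · rintro h2 n hn h3 ⟨q, rfl, h4⟩
      have e1 : ((q.natAbs : ℕ) : ℝ) = |(q : ℝ)| := by rw [Nat.cast_natAbs, Int.cast_abs]
      rw [e1] at h3
      exact absurd (h2 q (by rintro rfl; simp at hn) h3) (not_lt.2 h4)
    · intro h2 q hq h3
      by_contra h4
      have e1 : ((q.natAbs : ℕ) : ℝ) = |(q : ℝ)| := by rw [Nat.cast_natAbs, Int.cast_abs]
      exact h2 q.natAbs (Int.natAbs_pos.2 hq) (by rwa [e1]) ⟨q, rfl, not_lt.1 h4⟩

end Pool.Agent.Results.MP_0707f5_ag.CommonFactors
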