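import Pool.Agent.U449.BV.Q
import Pool.Agent.Results.MP_0707f5_ag.NilpotentPencils

/-!
# Pencils with nilpotent Higgs field: p-curvatures near the values of polynomials on arbitrary thin sets

Let `E`, `∇`, `Φ` be a pencil `∇ + q Φ` of flat bundles with a nilpotent Higgs field, `Φ ^ e = 0`, as in the starting result
`NilpotentPencils`, and let the generic member be not graded over `F₀`. Let `β`, `θ`, `K` be as there (for `β = 1` the
condition is `θ > 1 - 1 / e`), `κ ≥ 0` and `θ + κ < s ≤ 1`. Let `p` be a large prime and `X = 2 p`, let `A`, `B` be ARBITRARY sets of at least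
`X ^ s` residues modulo `p`, `g`, `h` ARBITRARY functions and `f(x, y)` ANY polynomial modulo `p` of degree at most `d` with a monomial
which contains both variables (for example `f = x y`). For all but `X ^ (-ρ) |A| |B|` of the pairs `(a, b)` ALL integers `q`
with `|q|` at a distance of at most `X ^ κ` from the least residue of `f(a, b) + g(a) + h(b)` are such that the primes `l ≤ X ^ θ` over
which the `l`-curvatures of `∇ + q Φ` do not vanish satisfy `∑ log l / l > (1 - β) θ log X + K`. More generally, this holds for all
functions `F(a, b)` with few coincidences (`Rare`).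

Since the sets and the functions `g` and `h` are arbitrary, the values have no arithmetic structure, and a value may be
taken by very many pairs. So the number of the exceptions (starting result) does not give the result directly. Proof: the
inequality of Cauchy and Schwarz; for most pairs `a, a'` the difference `F(a, b) - F(a', b)` is small for few `b`
(`Pool.Agent.U449.BV`).
-/

set_option autoImplicit false

namespace Pool.Agent.Results.MP_0707f5_ag.MixedPolynomials

open Polynomial Module
open Pool.Agent.U449.BV (Rare OnProductsX on_products_scale residues)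
open Pool.Agent.W77.IM
open Pool.Agent.Results.MP_0707f5_ag.NilpotentPencils (member badSum)

universe u v w

/-- ALL integers `q` with `||q| - x| ≤ W` satisfy `∑ log p / p > (1 - β) θ log X + K`, where the sum is over the primes
`p ≤ X ^ θ` over which the `p`-curvatures of `∇ + q Φ` do not vanish. -/
def Near {R F V : Type*} [CommRing R] [Field F] [Algebra R F] [AddCommGroup V]
    [Module F V] {A : Subalgebra R F} (nabla : V →+ V) (Φ : V →ₗ[F] V) (E : Submodule A V) (β θ K : ℝ) (X W x : ℝ) : Prop :=
  ∀ q : ℤ, |(|q| : ℝ) - x| ≤ W → (1 - β) * θ * Real.log X + K < badSum (member nabla Φ (q : F)) E (X ^ θ)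

/-- **Theorem.** Let `R` be a domain of characteristic zero, finitely generated over `ℤ`, let `F` be a field
containing `R` with an `R`-linear derivation `δ` and `δ x = 1`, let `T ∈ R[x]` be nonzero, let `V`
be a finite dimensional vector space over `F` with a connection `∇` and a linear map `Φ` such that
`Φ ^ e = 0`, `e ≥ 2`, and let `E ⊆ V` be a finitely generated `R[x, 1/T]`-module which is stable
under `∇` and `Φ` and generates `V`.  Let `t ∈ F` be a constant which is transcendental over `R`,
and let `F₀` be a `δ`-stable subfield of `F` containing `R` and `x`, with algebraically closed field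
of constants, such that the field `F` is generated by `F₀` and by constants.
Then either the generic member `∇ + t Φ` of the pencil has a filtration by subconnections with
graded pieces defined over `F₀`, or, for all `β`, `θ`, `K`, `κ` as above, the property `Near` holds for almost all values of
functions of two variables with few coincidences on arbitrary sets (`OnProductsX (θ + κ) κ`).
The least residues modulo `p` of `f(a, b) + g(a) + h(b)` are such a function, bounded by `X / 2 = p`, for all primes `p`, all
polynomials `f` modulo `p` with a monomial which contains both variables, arbitrary functions `g` and `h`, and arbitrary sets of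
residues. -/
theorem result {R : Type u} [CommRing R] [IsDomain R] [CharZero R] [Algebra.FiniteType ℤ R]
    {F : Type v} [Field F] [Algebra R F] (hR : Function.Injective (algebraMap R F))
    (δ : Derivation R F F) (x : F) (hx : δ x = 1) (T : R[X]) (hT : T ≠ 0)
    {V : Type w} [AddCommGroup V] [Module F V] [FiniteDimensional F V]
    (nabla : V →+ V) (hnabla : ∀ (f : F) (v : V), nabla (f • v) = δ f • v + f • nabla v)
    (Φ : V →ₗ[F] V) {e : ℕ} (he : 2 ≤ e) (hΦe : Φ ^ e = 0)
    (E : Submodule (CoordRing x T R) V) (hfg : E.FG) (hE : ∀ v ∈ E, nabla v ∈ E)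
    (hΦ : ∀ v ∈ E, Φ v ∈ E) (hspan : Submodule.span F (E : Set V) = ⊤)
    (t : F) (hδt : δ t = 0) (ht : Transcendental R t)
    (F₀ : Subfield F) (hF₀ : ∀ a : R, algebraMap R F a ∈ F₀) (hxF₀ : x ∈ F₀)
    (hδF₀ : ∀ f ∈ F₀, δ f ∈ F₀) (hclosed : IsAlgClosed (constField δ F₀))
    (hgen : Subfield.closure ({c | δ c = 0} ∪ (F₀ : Set F)) = ⊤) :
    (GradedOver (member nabla Φ t) F₀ ∨
      ∀ β θ K κ : ℝ, 1 - 1 / (e : ℝ) < β → β ≤ 1 →
        1 < θ * (1 + (β - (1 - 1 / (e : ℝ))) ^ 2 / ((1 - 1 / (e : ℝ)) * (1 / e))) → 0 ≤ κ →
        OnProductsX (θ + κ) κ (Near nabla Φ E β θ K)) ∧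
    ∀ (p : ℕ) [Fact p.Prime] (d : ℕ) (f : MvPolynomial (Fin 2) (ZMod p)), f.totalDegree ≤ d →
      (∃ m ∈ f.support, m 0 ≠ 0 ∧ m 1 ≠ 0) → ∀ (g h : ZMod p → ZMod p) (A B : Finset (ZMod p)),
        Rare d A B (fun a b => (((MvPolynomial.eval ![a, b] f + g a + h b).val : ℕ) : ℝ)) := by
  refine ⟨?_, residues⟩
  rcases NilpotentPencils.result hR δ x hx T hT nabla hnabla Φ he hΦe E hfg hE hΦ hspan t hδt ht F₀ hF₀ hxF₀ hδF₀ hclosed hgen
    with h | h
  · exact Or.inl h
  · refine Or.inr fun β θ K κ hβ hβ1 hθ hκ => ?_
    obtain ⟨C, hC⟩ := h.2 β θ K hβ hβ1 hθ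
    have he2 : (2 : ℝ) ≤ e := by exact_mod_cast he
    have h1 : 0 < 1 - 1 / (e : ℝ) := by
      have : 1 / (e : ℝ) ≤ 1 / 2 := one_div_le_one_div_of_le (by norm_num) he2
      linarith
    have hpos : 0 < 1 + (β - (1 - 1 / (e : ℝ))) ^ 2 / ((1 - 1 / (e : ℝ)) * (1 / e)) := by positivity
    have hθ0 : 0 < θ := by
      by_contra hcon
      have : θ * (1 + (β - (1 - 1 / (e : ℝ))) ^ 2 / ((1 - 1 / (e : ℝ)) * (1 / e))) ≤ 0 :=
        mul_nonpos_of_nonpos_of_nonneg (not_lt.1 hcon) hpos.le
      linarith
    refine on_products_scale (Good := fun X q => (1 - β) * θ * Real.log X + K < badSum (member nabla Φ (q : F)) E (X ^ θ))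
      (C := C) hθ0 hκ (fun X hX => ?_)
    simp only [not_lt]
    exact hC X hX

end Pool.Agent.Results.MP_0707f5_ag.MixedPolynomials
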