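import Pool.Agent.H320R.Pull

set_option autoImplicit false

open Finset Polynomial Pool.Agent.W432.PC Pool.Agent.Y227.SS Pool.Agent.Y227.TP
open Pool.Agent.N858.PC Pool.Agent.H320R Pool.Agent.R927 Pool.Agent.W432.HK
open Pool.Agent.W77.IM (CoordRing)

/-!
# Flat bundles on curves which contain a pull-back: matching of exponents and Harvey's condition

Let `C` be a curve over a finitely generated field of characteristic zero with a finite map
`x : C → ℙ¹`, and let `(E, ∇)` be a flat bundle on `C` (or on an open part of `C`) whose generic fibre
contains the pull-back of a Fuchsian system `d/dx - ∑ j, A j / (x - α j)` of any rank `r ≥ 2` with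
`n + 1` singular points; the system may be reducible, and its accessory parameters and its spectral type
are arbitrary. (If `x` is sufficiently ramified over the singular points, the pull-back is a flat bundle on
the proper curve `C`, which may have any large genus.) We assume that the differences of the exponents of
the system at the singular points have a common denominator without small prime factors.

If (H) holds for `(E, ∇)`, or if the `p`-curvatures of `E` are nonzero only for a set of primes of small
lower density, then the exponents of the system at any two singular points match modulo the differences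
of the exponents at the other points, Harvey's condition holds (the least common denominator of the
differences at each point divides the least common multiple of those at the other points), and there are
bounded integral relations of degree one and bounded nonnegative relations between the exponents, which
persist after the deletion of any `r - 1` of the `(n + 1) r` exponents. So (H) fails if, for example, a
prime power divides the order of the local monodromy in the projective group at exactly one of the
singular points, for a system whose orders of the local monodromies have no small prime factors.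

Proof. If the `p`-curvature of `E` vanishes at `𝔪`, that of the system vanishes at `𝔪`, for almost all `𝔪`
(starting library, `R927.transfer`). For the system see `MP_5e5ff1_ag.HarveyCondition`, where three
singular points are considered, and `MP_ba03d2_ag.RelationsOfDegreeOne`.
-/

namespace Pool.Agent.Results.MP_0707f5_ag.PullbackHarvey

universe u v w

/-- For every number `n ≥ 1` of finite singular points and every rank `r ≥ 2` there are `ε > 0` and `B`
with the following property. Let `R` be a domain of characteristic zero, of finite type over `ℤ`, let `F`
be a field containing `R` (the function field of a curve) with an `R`-linear derivation `δ` and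
`δ x = 1`, let `V` be a vector space over `F` with a connection `∇`, let `T ∈ R[x]` be nonzero and let
`E ⊆ V` be a finitely generated `R[x, 1/T]`-module which is stable under `∇` and generates `V` over the
rational functions of `x` (`IsModel`; a flat bundle on the part `T ≠ 0` of the curve, spread out over
`Spec R`). Let `α 0, …, α (n - 1)` be elements of `R` with invertible differences, and assume that `V`
contains the pull-back of the system `d/dx - ∑ j, A j / (x - α j)` of rank `r` (`HasPullback`).

(1) Let the exponents of the system be rational: `lam j l` (eigenvalues of `A j`) and `phi l` (eigenvalues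
of `∑ j, A j`), with a common denominator `N`, and let `e = allExp lam phi` be the family of the exponents
`e x l` (`lam j l` at `α j`, `-phi l` at infinity). Assume that the differences `e x l - e x l'` have a
common denominator all of whose prime factors are greater than `B` (`Rough`). Then `Related B e` holds
(`Matching`, `Harvey` and `Structured`), or for a proportion at least `ε` of the residue classes modulo
`N` prime to `N` the `p`-curvature of `E` is nonzero at all the closed points of `Spec R[1/g]`, for some
`g ≠ 0`, whose residue characteristic is a large prime in one of these classes (`BadModelClasses`), and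
(H) fails. If the system is irreducible over every field containing `R`, the same holds with `Spread B e`
instead of `Related B e`.

(2) If (H) holds for `E` (`HypH`), the exponents of the system are rational, and if their differences are
rough as in (1), then `Related B e` holds, and `Spread B e` if the system is irreducible.

(3) Let `R` be algebraic over `ℤ`. If for arbitrarily large `X` there are fewer than `ε π(X)` primes
`p ≤ X` such that the `p`-curvature of `E` is nonzero at some closed point of residue characteristic `p`
(`Few`), then the `A j` and `∑ j, A j` are diagonalizable with rational eigenvalues (`DiagExps`), and the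
conclusions of (2) hold. -/
theorem result (n r : ℕ) (hn : 0 < n) (hr : 2 ≤ r) :
    ∃ (ε : ℝ) (B : ℕ), 0 < ε ∧
      ∀ (R : Type u) [CommRing R] [IsDomain R] [CharZero R] [Algebra.FiniteType ℤ R]
        (F : Type v) [Field F] [Algebra R F] (δ : Derivation R F F) (x : F)
        (V : Type w) [AddCommGroup V] [Module F V] (nabla : V →+ V) (T : R[X])
        (E : Submodule (CoordRing x T R) V) (α : Fin n → R) (A : Fin n → Matrix (Fin r) (Fin r) R)
        (v : Fin r → V),
        Function.Injective (algebraMap R F) → δ x = 1 → T ≠ 0 → IsModel x T nabla E →
        (∀ i j, i ≠ j → IsUnit (α i - α j)) → HasPullback α A δ x nabla v →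
        (∀ (lam : Fin n → Fin r → ℚ) (phi : Fin r → ℚ) (N : ℕ),
          (∀ j, HasExponents (A j) (lam j)) → HasExponents (∑ j, A j) phi →
          CommonDen lam phi N → Rough B (allExp lam phi) →
          (Related B (allExp lam phi) ∨ (BadModelClasses nabla E N ε ∧ ¬ HypH nabla E)) ∧
          (AbsIrreducible α A →
            Spread B (allExp lam phi) ∨ (BadModelClasses nabla E N ε ∧ ¬ HypH nabla E))) ∧
        (HypH nabla E → ∃ (lam : Fin n → Fin r → ℚ) (phi : Fin r → ℚ),
          (∀ j, HasExponents (A j) (lam j)) ∧ HasExponents (∑ j, A j) phi ∧
          (Rough B (allExp lam phi) → Related B (allExp lam phi) ∧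
            (AbsIrreducible α A → Spread B (allExp lam phi)))) ∧
        (Algebra.IsAlgebraic ℤ R → Few (BadModelPt nabla E) ε →
          ∃ (lam : Fin n → Fin r → ℚ) (phi : Fin r → ℚ), (∀ j, DiagExps (A j) (lam j)) ∧
            DiagExps (∑ j, A j) phi ∧ (Rough B (allExp lam phi) → Related B (allExp lam phi) ∧
              (AbsIrreducible α A → Spread B (allExp lam phi)))) := by
  obtain ⟨ε, B, hε, h⟩ := main_sys.{u} n r hn hr
  refine ⟨ε / 2, B, by positivity, ?_⟩
  intro R _ _ _ _ F _ _ δ x V _ _ nabla T E α A v hRF hx hT hE hα hpb
  obtain ⟨h1, h2⟩ := h R α A hα
  have key : ∀ (lam : Fin n → Fin r → ℚ) (phi : Fin r → ℚ) (N : ℕ),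
      (∀ j, HasExponents (A j) (lam j)) → HasExponents (∑ j, A j) phi →
      CommonDen lam phi N → Rough B (allExp lam phi) →
      (Related B (allExp lam phi) ∨ (BadModelClasses nabla E N (ε / 2) ∧ ¬ HypH nabla E)) ∧
      (AbsIrreducible α A →
        Spread B (allExp lam phi) ∨ (BadModelClasses nabla E N (ε / 2) ∧ ¬ HypH nabla E)) := by
    intro lam phi N hlam hphi hN hR
    obtain ⟨h3, h4⟩ := h1 lam phi N hlam hphi hN hR
    refine ⟨h3.imp id fun h5 => ⟨badModelClasses_of hpb hRF hx hT hE one_ne_zero
      (badClasses_mono (by linarith) h5.1), fun hH => h5.2 (hpb.condII hRF hx hT hE hH)⟩,
      fun hirr => (h4 hirr).imp id fun h5 => ?_⟩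
    obtain ⟨⟨g, hg, h6⟩, h7⟩ := h5
    exact ⟨badModelClasses_of hpb hRF hx hT hE hg (badClasses_mono (by linarith) h6),
      fun hH => h7 (hpb.condII hRF hx hT hE hH)⟩
  refine ⟨key, fun hH => ?_, fun halg hfew => ?_⟩
  · obtain ⟨lam, phi, hlam, hphi⟩ := rational_of_condII hn hα (hpb.condII hRF hx hT hE hH)
    refine ⟨lam, phi, hlam, hphi, fun hR => ?_⟩
    obtain ⟨N, hN⟩ := Pool.Agent.H320R.exists_commonDen lam phi
    obtain ⟨h3, h4⟩ := key lam phi N hlam hphi hN hR
    exact ⟨h3.resolve_right fun h5 => h5.2 hH,
      fun hirr => (h4 hirr).resolve_right fun h5 => h5.2 hH⟩
  · exact h2 halg (few_badPt_of hpb hRF hx hT hE halg (by linarith) hfew)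

end Pool.Agent.Results.MP_0707f5_ag.PullbackHarvey
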